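import Pool.Agent.Helper89.CX.Act
import Pool.Agent.Helper52.TW.Cable

/-! Cabling for the braids `V r s`. -/

set_option autoImplicit false

namespace H52CX

open Pool.Agent.Helper87.LZ Pool.Agent.Helper89.CX H52TW

variable {k : ℕ} {t t' : ℂ}

lemma actV_zero {t : ℂ} {A : List (ℕ × ℕ)} (hA : ∀ p ∈ A, 1 ≤ p.1) {L : ℕ → ℂ} (h0 : L 0 = 0) :
    actV t A L 0 = 0 := by
  induction A generalizing L with
  | nil => exact h0
  | cons p A ih =>
    rw [actV_cons]
    exact ih (fun x hx => hA x (by simp [hx])) (Vr_zero h0 (hA p (by simp)))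

/-- `q ≤ k` letters `V (k a + 1) S` on a vector whose colours `k a, …, k a + k - 1` agree -/
lemma g_repV {M : ℕ → ℂ} (h0 : M 0 = 0) {a S : ℕ} (hS : k * a + k ≤ S) {y : ℂ}
    (hy : ∀ i < k, g t' M (k * a + i) = y) : ∀ q ≤ k,
    (actV t' (List.replicate q (k * a + 1, S)) M 0 = 0 ∧
      actV t' (List.replicate q (k * a + 1, S)) M S = M S) ∧
    ∀ i, g t' (actV t' (List.replicate q (k * a + 1, S)) M) i =
      if i < k * a then t' ^ q * g t' M i + (1 - t' ^ q) * y
      else if i + q < S then g t' M (i + q) else if i < S then t' ^ S * y + (1 - t') * M S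
        else g t' M i
  | 0, _ => by
    refine ⟨⟨by simpa using h0, by simp⟩, fun i => ?_⟩
    simp only [List.replicate_zero, actV_nil, add_zero, pow_zero, sub_self, zero_mul, one_mul]
    split_ifs <;> rfl
  | (q+1), hq => by
    obtain ⟨⟨h1, h2⟩, h3⟩ := g_repV h0 hS hy q (by omega)
    rw [List.replicate_succ', actV_append, actV_cons, actV_nil]
    obtain ⟨N, hN⟩ : ∃ N, N = actV t' (List.replicate q (k * a + 1, S)) M := ⟨_, rfl⟩
    rw [← hN] at h1 h2 h3
    rw [← hN]
    have hR : g t' N (k * a) = y := by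
      rw [h3 (k * a), if_neg (lt_irrefl _), if_pos (by omega : k * a + q < S), hy q (by omega)]
    refine ⟨⟨Vr_zero h1 (by omega), by rw [Vr_of_le (by omega) le_rfl, h2]⟩, fun i => ?_⟩
    rw [g_Vr (by omega) (by omega)]
    dsimp only
    rw [Nat.add_sub_cancel, hR, h2]
    by_cases hi : i < k * a
    · rw [if_pos (by omega), if_pos hi, h3 i, if_pos hi]
      ring
    · rw [if_neg (by omega), if_neg hi]
      by_cases hi1 : i + 1 < S
      · rw [if_pos hi1, h3 (i + 1), if_neg (by omega)]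
        have e : i + 1 + q = i + (q + 1) := by ring
        rw [e, if_pos hi1, if_pos (by omega : i < S)]
      · rw [if_neg hi1]
        by_cases hi2 : i + 1 = S
        · rw [if_pos hi2, if_neg (by omega), if_pos (by omega)]
        · rw [if_neg hi2, h3 i, if_neg hi, if_neg (by omega), if_neg (by omega), if_neg (by omega)]

/-- `V (k (r - 1) + 1) (k s)` to the power `k` at `t'` on the cable is the cable of `V r s` at
`t`. -/
theorem actV_up (hk : 1 ≤ k) (ht : t' ^ k = t) {L : ℕ → ℂ} (h0 : L 0 = 0) {r s : ℕ} (hr : 1 ≤ r)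
    (hrs : r ≤ s) :
    actV t' (List.replicate k (k * (r - 1) + 1, k * s)) (up k t t' L) = up k t t' (Vr t r s L) := by
  obtain ⟨a, rfl⟩ : ∃ a, r = a + 1 := ⟨r - 1, by omega⟩
  rw [Nat.add_sub_cancel]
  have hM0 := up_zero (t := t) (t' := t') hk h0
  have hy : ∀ i < k, g t' (up k t t' L) (k * a + i) = g t L a := by
    intro i hi
    rw [g_up hk ht]
    congr 1
    rw [Nat.mul_add_div (by omega), Nat.div_eq_of_lt hi, add_zero]
  have hS : k * a + k ≤ k * s := by
    calc k * a + k = k * (a + 1) := by ring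
      _ ≤ k * s := Nat.mul_le_mul_left k hrs
  obtain ⟨⟨h1, -⟩, h3⟩ := g_repV hM0 hS hy k le_rfl
  apply ext_g' (t' := t')
  · rw [h1, up_zero hk (Vr_zero h0 hr)]
  · intro i
    rw [h3 i, g_up hk ht (Vr t (a + 1) s L) i, g_Vr hr hrs, up_mul hk, Nat.add_sub_cancel, ht,
      g_up hk ht L i]
    have hx : t' ^ (k * s) * g t L a + (1 - t') * (br t' k * L s) =
        t ^ s * g t L a + (1 - t) * L s := by
      rw [pow_mul, ht, ← mul_assoc, br_mul, ht]
    rw [hx]
    have c0 : i < k * a ↔ i / k + 1 < a + 1 := by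
      rw [Nat.add_lt_add_iff_right, Nat.div_lt_iff_lt_mul (by omega), mul_comm a k]
    have c1 : i + k < k * s ↔ i / k + 1 < s := by
      rw [← Nat.add_div_right i (by omega : 0 < k), Nat.div_lt_iff_lt_mul (by omega), mul_comm s k]
    have c2 : i < k * s ↔ i / k < s := by
      rw [Nat.div_lt_iff_lt_mul (by omega), mul_comm s k]
    by_cases h4 : i / k + 1 < a + 1
    · rw [if_pos (c0.2 h4), if_pos h4]
    · rw [if_neg (fun h => h4 (c0.1 h)), if_neg h4]
      by_cases h5 : i / k + 1 < s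
      · rw [if_pos (c1.2 h5), if_pos h5, g_up hk ht, Nat.add_div_right i (by omega : 0 < k)]
      · rw [if_neg (fun h => h5 (c1.1 h)), if_neg h5]
        by_cases h6 : i / k + 1 = s
        · rw [if_pos (c2.2 (by omega)), if_pos h6]
        · rw [if_neg (fun h => h6 (by have := c2.1 h; omega)), if_neg h6]

/-- the cabled list -/
def cab (k : ℕ) (A : List (ℕ × ℕ)) : List (ℕ × ℕ) :=
  A.flatMap fun p => List.replicate k (k * (p.1 - 1) + 1, k * p.2)

theorem cab_mem {n : ℕ} (hk : 1 ≤ k) {A : List (ℕ × ℕ)}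
    (hA : ∀ p ∈ A, 1 ≤ p.1 ∧ p.1 ≤ p.2 ∧ p.2 ≤ n) :
    ∀ p ∈ cab k A, 1 ≤ p.1 ∧ p.1 ≤ p.2 ∧ p.2 ≤ k * n := by
  intro p hp
  unfold cab at hp
  rw [List.mem_flatMap] at hp
  obtain ⟨x, hx, hxp⟩ := hp
  have h2 := List.eq_of_mem_replicate hxp
  subst h2
  obtain ⟨h3, h4, h5⟩ := hA x hx
  refine ⟨by omega, ?_, Nat.mul_le_mul_left k h5⟩
  have h6 : k * (x.1 - 1) + k ≤ k * x.2 := by
    calc k * (x.1 - 1) + k = k * (x.1 - 1 + 1) := by ring
      _ ≤ k * x.2 := Nat.mul_le_mul_left k (by omega)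
  show k * (x.1 - 1) + 1 ≤ k * x.2
  omega

theorem actV_cable (hk : 1 ≤ k) (ht : t' ^ k = t) {A : List (ℕ × ℕ)}
    (hA : ∀ p ∈ A, 1 ≤ p.1 ∧ p.1 ≤ p.2) {L : ℕ → ℂ} (h0 : L 0 = 0) :
    actV t' (cab k A) (up k t t' L) = up k t t' (actV t A L) := by
  induction A generalizing L with
  | nil => rfl
  | cons p A ih =>
    have hp := hA p (by simp)
    unfold cab at ih ⊢
    rw [List.flatMap_cons, actV_append, actV_up hk ht h0 hp.1 hp.2,
      ih (fun x hx => hA x (by simp [hx])) (Vr_zero h0 hp.1), actV_cons]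

/-- **cabling** -/
theorem cablingV (t t' : ℂ) (k n : ℕ) (hk : 1 ≤ k) (ht : t' ^ k = t) (h1 : ‖t‖ < 1)
    (A : List (ℕ × ℕ)) (hA : ∀ p ∈ A, 1 ≤ p.1 ∧ p.1 ≤ p.2) (L : ℕ → ℂ) (h0 : L 0 = 0)
    (hfix : ∀ j ≤ n, actV t A L j = L j) :
    ∃ L' : ℕ → ℂ, ∃ c : ℂ, c ≠ 0 ∧ L' 0 = 0 ∧ (∀ j ≤ n, L' (k * j) = c * L j) ∧
      ∀ j ≤ k * n, actV t' (cab k A) L' j = L' j := by
  refine ⟨up k t t' L, br t' k, ?_, up_zero hk h0, fun j _ => up_mul hk L j, fun i hi => ?_⟩
  · intro h
    have := br_mul t' k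
    rw [h, mul_zero, ht] at this
    have h2 : t = 1 := by linear_combination this
    rw [h2, norm_one] at h1
    exact lt_irrefl _ h1
  · rw [actV_cable hk ht hA h0]
    have hik : i / k ≤ n := by
      rw [← Nat.mul_div_cancel_left n (by omega : 0 < k)]
      exact Nat.div_le_div_right hi
    unfold up
    rw [hfix _ hik]
    rcases Nat.eq_zero_or_pos (i % k) with hm | hm
    · rw [hm]; simp
    · have h3 : i / k + 1 ≤ n := by
        by_contra hcon
        have h4 : n ≤ i / k := by omega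
        have h5 := Nat.div_add_mod i k
        have h6 : k * n ≤ k * (i / k) := Nat.mul_le_mul_left k h4
        omega
      rw [hfix _ h3]

end H52CX
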